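import Pool.Agent.H87.AQ.Defs

/-!
# Alperin–McKay (MP_657073_al): residue dichotomy. Targets of the modules
-/

open scoped Classical ComplexConjugate

namespace AMq

open AMx

/-! ## E. Character theory -/

/-- E0: finiteness, completeness, sum of the squares of the degrees -/
def T_E0 : Prop := ∀ (G : Type) [Group G] [Fintype G], ∃ fs : Finset (G → ℂ),
  (∀ θ, θ ∈ fs ↔ θ ∈ Irr G) ∧
  (∀ f : G → ℂ, CF f → ∀ x, (Nat.card G : ℂ) * f x = ∑ χ ∈ fs, (∑ g, f g * conj (χ g)) * χ x) ∧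
  ∑ χ ∈ fs, χ 1 * χ 1 = (Nat.card G : ℂ)

/-! ## Q. Normal subgroups of prime index `q`: Clifford theory -/

/-- Q1: elementary facts -/
def T_Q1 : Prop := ∀ (q : ℕ) [Fact q.Prime] (X K : Type) [Group X] [Fintype X] [Group K]
  [Fintype K] (F : Cy q X K),
  Nat.card X = q * Nat.card K ∧
  (∀ x, ∃ c : ℕ, c < q ∧ ∃ k, x = F.s ^ c * F.io k) ∧
  (∀ θ ∈ Irr K, (fun k => θ (F.sg k)) ∈ Irr K ∧ ∀ k, θ ((F.sg ^ q) k) = θ k) ∧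
  (∀ θ ∈ Irr K, ¬ F.Inv θ → ∀ c c' : ℕ, c < q → c' < q →
    (∀ k, θ ((F.sg ^ c) k) = θ ((F.sg ^ c') k)) → c = c') ∧
  (∀ θ : K → ℂ, CF θ → CF (F.ind θ)) ∧
  (∀ θ : K → ℂ, F.ind θ 1 = q * θ 1) ∧
  (∀ θ : K → ℂ, ∀ k, F.ind θ (F.io k) = ∑ c ∈ Finset.range q, θ ((F.sg ^ c) k)) ∧
  (∀ θ : K → ℂ, ∀ x, F.p x ≠ 1 → F.ind θ x = 0) ∧
  (∀ a : X → ℂ, CF a → ∀ θ : K → ℂ, ∑ x, a x * F.ind θ x = q * ∑ k, a (F.io k) * θ k) ∧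
  (∀ a : X → ℂ, CF a → ∀ θ : K → ℂ,
    ∑ x, a x * conj (F.ind θ x) = q * ∑ k, a (F.io k) * conj (θ k))

/-- M1: multiplicities are natural numbers -/
def T_M1 : Prop := ∀ (X K : Type) [Group X] [Fintype X] [Group K] [Fintype K] (j : K →* X),
  ∀ χ ∈ Irr X, ∀ θ ∈ Irr K, ∃ m : ℕ, ∑ k, χ (j k) * conj (θ k) = m * (Nat.card K : ℂ)

/-- M2: twisting by a linear character of order dividing `q` -/
def T_M2 : Prop := ∀ (q : ℕ) [Fact q.Prime] (X : Type) [Group X] [Fintype X]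
  (p : X →* Multiplicative (ZMod q)), ∃ ζ : ℂ, ζ ^ q = 1 ∧ ζ ≠ 1 ∧
  ∀ χ ∈ Irr X, ∀ c : ℕ, (fun x => ζ ^ (c * (Multiplicative.toAdd (p x)).val) * χ x) ∈ Irr X

/-- Q2: a character which is not invariant induces irreducibly -/
def T_Q2 : Prop := ∀ (q : ℕ) [Fact q.Prime] (X K : Type) [Group X] [Fintype X] [Group K]
  [Fintype K] (F : Cy q X K), ∀ θ ∈ Irr K, ¬ F.Inv θ →
  F.ind θ ∈ Irr X ∧ F.Ov (F.ind θ) θ ∧ ∀ χ ∈ Irr X, F.Ov χ θ → χ = F.ind θ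

/-- Q3: an invariant character has exactly `q` extensions and no other characters above it -/
def T_Q3 : Prop := ∀ (q : ℕ) [Fact q.Prime] (X K : Type) [Group X] [Fintype X] [Group K]
  [Fintype K] (F : Cy q X K), ∀ θ ∈ Irr K, F.Inv θ →
  {χ | χ ∈ Irr X ∧ F.Ov χ θ}.ncard = q ∧ ∀ χ ∈ Irr X, F.Ov χ θ → ∀ k, χ (F.io k) = θ k

/-- Q4: constituents of the restriction -/
def T_Q4 : Prop := ∀ (q : ℕ) [Fact q.Prime] (X K : Type) [Group X] [Fintype X] [Group K]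
  [Fintype K] (F : Cy q X K), ∀ χ ∈ Irr X,
  (∃ θ ∈ Irr K, F.Ov χ θ) ∧
  (∀ θ : K → ℂ, F.Ov χ θ → F.Ov χ (fun k => θ (F.sg k))) ∧
  (∀ θ ∈ Irr K, ∀ θ' ∈ Irr K, F.Ov χ θ → F.Ov χ θ' →
    ∃ c : ℕ, c < q ∧ ∀ k, θ' k = θ ((F.sg ^ c) k)) ∧
  (∀ θ ∈ Irr K, F.Ov χ θ → ∀ a : X → ℂ, CF a → (∀ x, F.p x ≠ 1 → a x = 0) →
    (∑ x, a x * χ x) / χ 1 = (∑ k, a (F.io k) * θ k) / θ 1)

/-- Q5: counting. `A` is a set of irreducible characters of `K` closed under `sg`, `B` the set of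
the irreducible characters of `X` over `A` -/
def T_Q5 : Prop := ∀ (q : ℕ) [Fact q.Prime] (X K : Type) [Group X] [Fintype X] [Group K]
  [Fintype K] (F : Cy q X K) (A : Set (K → ℂ)) (B : Set (X → ℂ)),
  (∀ θ ∈ A, θ ∈ Irr K ∧ (fun k => θ (F.sg k)) ∈ A) →
  (∀ χ, χ ∈ B ↔ χ ∈ Irr X ∧ ∃ θ ∈ A, F.Ov χ θ) →
  q * B.ncard + {θ | θ ∈ A ∧ F.Inv θ}.ncard = A.ncard + q ^ 2 * {θ | θ ∈ A ∧ F.Inv θ}.ncard

/-! ## R. Blocks and normal subgroups of prime index.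
Standing hypotheses: `ℓ` prime, `𝔪` maximal, `ℓ ∈ 𝔪`. -/

/-- R1: characters over the block of a character which is not invariant -/
def T_R1 : Prop := ∀ (𝔪 : Ideal (integralClosure ℤ ℂ)), 𝔪.IsMaximal → ∀ (q : ℕ) [Fact q.Prime]
  (X K : Type) [Group X] [Fintype X] [Group K] [Fintype K] (F : Cy q X K),
  ∀ θ₀ ∈ Irr K, ¬ F.Inv θ₀ → ∀ θ ∈ Irr K, SameBlock 𝔪 θ₀ θ →
  ∀ χ ∈ Irr X, F.Ov χ θ → SameBlock 𝔪 (F.ind θ₀) χ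

/-! ## V. Powers of a group -/

/-- V1: irreducible characters of powers -/
def T_V1 : Prop := ∀ (ι : Type) [Fintype ι] [DecidableEq ι] (H : Type) [Group H] [Fintype H],
  (∀ τ : ι → H → ℂ, (∀ i, τ i ∈ Irr H) → pw τ ∈ Irr (ι → H)) ∧
  (∀ φ ∈ Irr (ι → H), ∃ τ : ι → H → ℂ, (∀ i, τ i ∈ Irr H) ∧ pw τ = φ) ∧
  (∀ τ τ' : ι → H → ℂ, (∀ i, τ i ∈ Irr H) → (∀ i, τ' i ∈ Irr H) → pw τ = pw τ' → τ = τ')

/-- V2: central characters and blocks of powers -/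
def T_V2 : Prop := ∀ (𝔪 : Ideal (integralClosure ℤ ℂ)), 𝔪.IsMaximal →
  ∀ (ι : Type) [Fintype ι] [DecidableEq ι] (H : Type) [Group H] [Fintype H],
  (∀ (τ : ι → H → ℂ) (f : ι → H),
    cen (MonoidHom.id (ι → H)) (pw τ) f = ∏ i, cen (MonoidHom.id H) (τ i) (f i)) ∧
  (∀ (τ τ' : ι → H → ℂ), (∀ i, τ i ∈ Irr H) → (∀ i, τ' i ∈ Irr H) →
    (SameBlock 𝔪 (pw τ) (pw τ') ↔ ∀ i, SameBlock 𝔪 (τ i) (τ' i))) ∧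
  (∀ (y : H → ℂ) (τ : ι → H → ℂ),
    (∑ f : ι → H, (∏ i, y (f i)) * pw τ f) / pw τ 1 = ∏ i, (∑ h, y h * τ i h) / τ i 1)

/-- V3: Brauer correspondence and powers -/
def T_V3 : Prop := ∀ (𝔪 : Ideal (integralClosure ℤ ℂ)), 𝔪.IsMaximal →
  ∀ (ι : Type) [Fintype ι] [DecidableEq ι] (H N : Type) [Group H] [Fintype H] [Group N]
  [Fintype N] (j : N →* H) (τ : ι → H → ℂ) (τ' : ι → N → ℂ), (∀ i, τ i ∈ Irr H) →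
  (∀ i, Corr 𝔪 j (τ i) (τ' i)) → Corr 𝔪 (j.compLeft ι) (pw τ) (pw τ')

/-! ## W. The wreath product -/

/-- W1: characters in the block of `ind (pw τ₀)` lie over tuples in the block of `χ` -/
def T_W1 : Prop := ∀ (𝔪 : Ideal (integralClosure ℤ ℂ)), 𝔪.IsMaximal → ∀ (q : ℕ) [Fact q.Prime]
  (X H : Type) [Group X] [Fintype X] [Group H] [Fintype H] (F : Cy q X (ZMod q → H)), F.Wr →
  ∀ χ ∈ Irr H, ∀ τ₀ τ : ZMod q → H → ℂ, Tup 𝔪 χ τ₀ → ¬ F.Inv (pw τ₀) → (∀ i, τ i ∈ Irr H) →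
  ∀ φ ∈ Irr X, F.Ov φ (pw τ) → SameBlock 𝔪 (F.ind (pw τ₀)) φ → Tup 𝔪 χ τ

/-- W2: the defect group -/
def T_W2 : Prop := ∀ (ℓ : ℕ) [Fact ℓ.Prime] (𝔪 : Ideal (integralClosure ℤ ℂ)), 𝔪.IsMaximal →
  (ℓ : integralClosure ℤ ℂ) ∈ 𝔪 → ∀ (q : ℕ) [Fact q.Prime], q ≠ ℓ →
  ∀ (X H : Type) [Group X] [Fintype X] [Group H] [Fintype H] (F : Cy q X (ZMod q → H)), F.Wr →
  ∀ χ ∈ Irr H, ∀ D : Subgroup H, IsDefect ℓ 𝔪 χ D → ∀ τ₀ : ZMod q → H → ℂ, Tup 𝔪 χ τ₀ →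
  ¬ F.Inv (pw τ₀) → IsDefect ℓ 𝔪 (F.ind (pw τ₀)) ((pS (ZMod q) D).map F.io)

/-- W3: the number of characters of height zero -/
def T_W3 : Prop := ∀ (ℓ : ℕ) [Fact ℓ.Prime] (𝔪 : Ideal (integralClosure ℤ ℂ)), 𝔪.IsMaximal →
  (ℓ : integralClosure ℤ ℂ) ∈ 𝔪 → ∀ (q : ℕ) [Fact q.Prime], q ≠ ℓ →
  ∀ (X H : Type) [Group X] [Fintype X] [Group H] [Fintype H] (F : Cy q X (ZMod q → H)), F.Wr →
  ∀ χ ∈ Irr H, ∀ D : Subgroup H, IsDefect ℓ 𝔪 χ D → ∀ τ₀ : ZMod q → H → ℂ, Tup 𝔪 χ τ₀ →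
  ¬ F.Inv (pw τ₀) → k0 ℓ 𝔪 (F.ind (pw τ₀)) ((pS (ZMod q) D).map F.io) = th q (k0 ℓ 𝔪 χ D)

/-- W4: the normaliser -/
def T_W4 : Prop := ∀ (q : ℕ) [Fact q.Prime] (X H : Type) [Group X] [Fintype X] [Group H]
  [Fintype H] (F : Cy q X (ZMod q → H)), F.Wr → ∀ D : Subgroup H,
  ∃ F' : Cy q (Subgroup.normalizer ((((pS (ZMod q) D).map F.io : Subgroup X)) : Set X))
    (ZMod q → Subgroup.normalizer (D : Set H)), F'.Wr ∧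
    (∀ f, (F'.io f : X) = F.io (fun i => (f i : H))) ∧ (F'.s : X) = F.s ∧
    (∀ x, F'.p x = F.p (x : X)) ∧
    (pS (ZMod q) (D.subgroupOf (Subgroup.normalizer (D : Set H)))).map F'.io =
      ((pS (ZMod q) D).map F.io).subgroupOf
        (Subgroup.normalizer ((((pS (ZMod q) D).map F.io : Subgroup X)) : Set X))

/-- W5: Brauer correspondence. `F` for `(X, H)`, `F'` for `(M, N)`, compatible with `j : N → H`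
and `J : M → X` -/
def T_W5 : Prop := ∀ (𝔪 : Ideal (integralClosure ℤ ℂ)), 𝔪.IsMaximal → ∀ (q : ℕ) [Fact q.Prime]
  (X H M N : Type) [Group X] [Fintype X] [Group H] [Fintype H] [Group M] [Fintype M] [Group N]
  [Fintype N] (F : Cy q X (ZMod q → H)) (F' : Cy q M (ZMod q → N)), F.Wr → F'.Wr →
  ∀ (j : N →* H) (J : M →* X), Function.Injective J →
  (∀ f, J (F'.io f) = F.io (fun i => j (f i))) → (∀ x, F'.p x = F.p (J x)) →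
  ∀ (τ : ZMod q → H → ℂ) (τ' : ZMod q → N → ℂ), (∀ i, τ i ∈ Irr H) → (∀ i, τ' i ∈ Irr N) →
  (∀ i, ∀ k, Corr 𝔪 j (τ i) (τ' k)) → Corr 𝔪 J (F.ind (pw τ)) (F'.ind (pw τ'))

/-- W6: existence of the wreath product -/
def T_W6 : Prop := ∀ (q : ℕ) [Fact q.Prime] (H : Type) [Group H] [Fintype H],
  ∃ (X : Type) (_ : Group X) (_ : Fintype X) (F : Cy q X (ZMod q → H)), F.Wr

/-- W7: the Brauer triple of the wreath product, and closure of the class of defect groups -/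
def T_W7 : Prop := ∀ (ℓ : ℕ) [Fact ℓ.Prime] (𝔪 : Ideal (integralClosure ℤ ℂ)), 𝔪.IsMaximal →
  (ℓ : integralClosure ℤ ℂ) ∈ 𝔪 → ∀ (q : ℕ) [Fact q.Prime], q ≠ ℓ →
  ∀ (H : Type) [Group H] [Fintype H] (D : Subgroup H) (χ : H → ℂ)
  (ψ : Subgroup.normalizer (D : Set H) → ℂ), Brauer ℓ 𝔪 D χ ψ →
  (∃ χ₂ ∈ Irr H, χ₂ ≠ χ ∧ SameBlock 𝔪 χ χ₂) →
  (∃ ψ₂ ∈ Irr (Subgroup.normalizer (D : Set H)), ψ₂ ≠ ψ ∧ SameBlock 𝔪 ψ ψ₂) →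
  ∀ 𝓓 : (D : Type) → [Group D] → Prop, Closed ℓ 𝓓 → 𝓓 D →
  Pr ℓ 𝔪 𝓓 (th q (k0 ℓ 𝔪 χ D))
    (th q (k0 ℓ 𝔪 ψ (D.subgroupOf (Subgroup.normalizer (D : Set H)))))

/-! ## U. Products -/

/-- U1: products of Brauer triples -/
def T_U1 : Prop := ∀ (ℓ : ℕ) [Fact ℓ.Prime] (𝔪 : Ideal (integralClosure ℤ ℂ)), 𝔪.IsMaximal →
  (ℓ : integralClosure ℤ ℂ) ∈ 𝔪 → ∀ (G K : Type) [Group G] [Fintype G] [Group K] [Fintype K]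
  (D : Subgroup G) (E : Subgroup K) (χ χ₂ : G → ℂ) (χ' χ₂' : K → ℂ)
  (ψ ψ₂ : Subgroup.normalizer (D : Set G) → ℂ) (ψ' ψ₂' : Subgroup.normalizer (E : Set K) → ℂ),
  Brauer ℓ 𝔪 D χ ψ → Brauer ℓ 𝔪 E χ' ψ' →
  ∃ e : Subgroup.normalizer ((D.prod E : Subgroup (G × K)) : Set (G × K)) ≃*
      (Subgroup.normalizer (D : Set G)) × (Subgroup.normalizer (E : Set K)),
    Brauer ℓ 𝔪 (D.prod E) (fun p : G × K => χ p.1 * χ' p.2)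
      (fun x => ψ (e x).1 * ψ' (e x).2) ∧
    k0 ℓ 𝔪 (fun p : G × K => χ p.1 * χ' p.2) (D.prod E) = k0 ℓ 𝔪 χ D * k0 ℓ 𝔪 χ' E ∧
    k0 ℓ 𝔪 (fun x => ψ (e x).1 * ψ' (e x).2) ((D.prod E).subgroupOf
        (Subgroup.normalizer ((D.prod E : Subgroup (G × K)) : Set (G × K)))) =
      k0 ℓ 𝔪 ψ (D.subgroupOf (Subgroup.normalizer (D : Set G))) *
        k0 ℓ 𝔪 ψ' (E.subgroupOf (Subgroup.normalizer (E : Set K))) ∧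
    (χ₂ ∈ Irr G → χ₂' ∈ Irr K → SameBlock 𝔪 χ χ₂ → SameBlock 𝔪 χ' χ₂' →
      (fun p : G × K => χ₂ p.1 * χ₂' p.2) ∈ Irr (G × K) ∧
      SameBlock 𝔪 (fun p : G × K => χ p.1 * χ' p.2) (fun p : G × K => χ₂ p.1 * χ₂' p.2)) ∧
    (ψ₂ ∈ Irr (Subgroup.normalizer (D : Set G)) → ψ₂' ∈ Irr (Subgroup.normalizer (E : Set K)) →
      SameBlock 𝔪 ψ ψ₂ → SameBlock 𝔪 ψ' ψ₂' →
      (fun x => ψ₂ (e x).1 * ψ₂' (e x).2) ∈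
        Irr (Subgroup.normalizer ((D.prod E : Subgroup (G × K)) : Set (G × K))) ∧
      SameBlock 𝔪 (fun x => ψ (e x).1 * ψ' (e x).2) (fun x => ψ₂ (e x).1 * ψ₂' (e x).2))

/-- U2: the cyclic group of order `ℓ` -/
def T_U2 : Prop := ∀ (ℓ : ℕ) [Fact ℓ.Prime] (𝔪 : Ideal (integralClosure ℤ ℂ)), 𝔪.IsMaximal →
  (ℓ : integralClosure ℤ ℂ) ∈ 𝔪 → ∃ (χ₂ : Multiplicative (ZMod ℓ) → ℂ)
    (ψ₂ : Subgroup.normalizer (((⊤ : Subgroup (Multiplicative (ZMod ℓ)))) :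
      Set (Multiplicative (ZMod ℓ))) → ℂ),
  Brauer ℓ 𝔪 (⊤ : Subgroup (Multiplicative (ZMod ℓ))) (fun _ => 1) (fun _ => 1) ∧
  k0 ℓ 𝔪 (fun _ => 1) (⊤ : Subgroup (Multiplicative (ZMod ℓ))) = ℓ ∧
  k0 ℓ 𝔪 (fun _ => 1) ((⊤ : Subgroup (Multiplicative (ZMod ℓ))).subgroupOf
    (Subgroup.normalizer (((⊤ : Subgroup (Multiplicative (ZMod ℓ)))) :
      Set (Multiplicative (ZMod ℓ))))) = ℓ ∧
  χ₂ ∈ Irr (Multiplicative (ZMod ℓ)) ∧ (∃ x, χ₂ x ≠ 1) ∧ χ₂ 1 = 1 ∧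
  SameBlock 𝔪 (fun _ => 1) χ₂ ∧
  ψ₂ ∈ Irr (Subgroup.normalizer (((⊤ : Subgroup (Multiplicative (ZMod ℓ)))) :
      Set (Multiplicative (ZMod ℓ)))) ∧ (∃ x, ψ₂ x ≠ 1) ∧ ψ₂ 1 = 1 ∧ SameBlock 𝔪 (fun _ => 1) ψ₂

/-! ## K. Every block has a character of height zero -/

/-- KA: an integral element of the centre which lies in the block and is not nilpotent -/
def T_KA : Prop := ∀ (𝔪 : Ideal (integralClosure ℤ ℂ)), 𝔪.IsMaximal →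
  ∀ (G : Type) [Group G] [Fintype G], ∀ χ ∈ Irr G, ∃ z : G → ℂ, CF z ∧ (∀ x, IsIntegral ℤ (z x)) ∧
  (∀ χ' ∈ Irr G, SameBlock 𝔪 χ χ' → ¬ Cong 𝔪 ((∑ x, z x * χ' x) / χ' 1) 0) ∧
  ∀ χ' ∈ Irr G, ¬ SameBlock 𝔪 χ χ' → ∑ x, z x * χ' x = 0

/-- KB: averages of a character over a coset of `D` are integral -/
def T_KB : Prop := ∀ (G : Type) [Group G] [Fintype G] (D : Subgroup G), ∀ χ ∈ Irr G,
  ∀ y ∈ Subgroup.centralizer (D : Set G),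
  IsIntegral ℤ ((∑ u : D, χ (y * u)) / (Nat.card D : ℂ))

/-- KC: nilpotency modulo `𝔪` on the centraliser of `D` -/
def T_KC : Prop := ∀ (ℓ : ℕ) [Fact ℓ.Prime] (𝔪 : Ideal (integralClosure ℤ ℂ)), 𝔪.IsMaximal →
  (ℓ : integralClosure ℤ ℂ) ∈ 𝔪 → ∀ (G : Type) [Group G] [Fintype G] (D : Subgroup G),
  IsPGroup ℓ D → ∀ z : G → ℂ, CF z → (∀ x, IsIntegral ℤ (z x)) →
  (∀ y ∈ Subgroup.centralizer (D : Set G), Cong 𝔪 (∑ u : D, z (y * u)) 0) →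
  ∃ n : ℕ, ∀ x ∈ Subgroup.centralizer (D : Set G), Cong 𝔪 (cpow z n x) 0

/-- K0: every block has a character of height zero -/
def T_K0 : Prop := ∀ (ℓ : ℕ) [Fact ℓ.Prime] (𝔪 : Ideal (integralClosure ℤ ℂ)), 𝔪.IsMaximal →
  (ℓ : integralClosure ℤ ℂ) ∈ 𝔪 → ∀ (G : Type) [Group G] [Fintype G], ∀ χ ∈ Irr G,
  ∀ D : Subgroup G, IsDefect ℓ 𝔪 χ D → 0 < k0 ℓ 𝔪 χ D

/-! ## B. The coprime affine reduction with a class of defect groups -/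

/-- B7D: `AMrelD` passes from `X` to `T` -/
def T_B7D : Prop := ∀ (ℓ : ℕ) [Fact ℓ.Prime] (𝔪 : Ideal (integralClosure ℤ ℂ)), 𝔪.IsMaximal →
  (ℓ : integralClosure ℤ ℂ) ∈ 𝔪 → ∀ 𝓓 : (D : Type) → [Group D] → Prop, Closed ℓ 𝓓 →
  ∀ (X T : Type) [Group X] [Group T] [Fintype X] [Fintype T]
  (P : ℕ → ℕ → Prop), Nonempty (Fr ℓ X T) → AMrelD ℓ 𝔪 𝓓 P X → AMrelD ℓ 𝔪 𝓓 P T

/-! ## N. Arithmetic -/

/-- N1: the function `th q` -/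
def T_N1 : Prop := ∀ (q : ℕ), q.Prime →
  (∀ x, q * th q x = x ^ q + (q ^ 2 - 1) * x) ∧
  (∀ n x y, x ≡ y [MOD q * n] → th q x ≡ th q y [MOD n]) ∧
  (∀ n x y, n.Coprime q → x ≡ y [MOD n] → th q x ≡ th q y [MOD n]) ∧
  th q 1 = q ∧ th q 0 = 0 ∧ (∀ x y, x < y → th q x < th q y) ∧
  (∀ x, 0 < x → q ∣ x → padicValNat q (th q x) + 1 = padicValNat q x) ∧
  (∀ e x y, x ≡ y [MOD q] → th q x ≡ th q y [MOD q ^ e] → x ≡ y [MOD q ^ (e + 1)]) ∧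
  (∀ a i e, ∃ u, u ≡ a [MOD q] ∧ th q u ≡ i [MOD q ^ e])

/-- N2: virtual pairs are closed under scaling and `th q` -/
def T_N2 : Prop := ∀ (ℓ : ℕ), ℓ.Prime → ∀ (Dg : ℕ → Prop) (T : ℕ → ℕ → Prop), Clos ℓ Dg T →
  VC ℓ (Vt ℓ T)

/-- N3: the basic operation (scaling by `c` at `q`, then `th q`, then rescaling at `M`), and
scaling at `q` alone -/
def T_N3 : Prop := ∀ (ℓ : ℕ), ℓ.Prime → ∀ (V : ℕ → ℕ → Prop), VC ℓ V → ∀ (q : ℕ), q.Prime →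
  q ≠ ℓ → ∀ M : ℕ, 0 < M → M.Coprime q → ∀ a b : ℕ, Vp V M a b → ∀ c E : ℕ,
  (∃ a' b', Vp V M a' b' ∧ a' ≡ c * a [MOD q ^ E] ∧ b' ≡ c * b [MOD q ^ E]) ∧
  (∃ a' b', Vp V M a' b' ∧ a' ≡ th q (c * a) [MOD q ^ E] ∧ b' ≡ th q (c * b) [MOD q ^ E])

/-- N4: pairs `≡ (1, 1)` modulo any `M` -/
def T_N4 : Prop := ∀ (ℓ : ℕ), ℓ.Prime → ∀ (V : ℕ → ℕ → Prop), VC ℓ V →
  (∃ a b, Vp V 1 a b) → ∀ M : ℕ, M.Coprime ℓ → ∃ a b, Vp V M a b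

/-- N5: roots -/
def T_N5 : Prop := ∀ (q : ℕ), q.Prime → ∀ (C : ℕ), C ≡ 1 [MOD q] → ∀ E : ℕ,
  ∃ c : ℕ, 0 < c ∧ ¬ q ∣ c ∧ c ^ (q - 1) ≡ C [MOD q ^ E]

/-- N6: a unit and an entry of valuation one -/
def T_N6 : Prop := ∀ (ℓ : ℕ), ℓ.Prime → ∀ (V : ℕ → ℕ → Prop), VC ℓ V → ∀ (q : ℕ), q.Prime →
  q ≠ ℓ → ∀ M : ℕ, 0 < M → M.Coprime q → (∃ a b, Vp V M a b) →
  ∃ a b, Vp V M a b ∧ ((padicValNat q a = 1 ∧ ¬ q ∣ b) ∨ (padicValNat q b = 1 ∧ ¬ q ∣ a))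

/-- N7: from a unit and an entry of valuation one to all residues modulo `q ^ e` -/
def T_N7 : Prop := ∀ (ℓ : ℕ), ℓ.Prime → ∀ (V : ℕ → ℕ → Prop), VC ℓ V → ∀ (q : ℕ), q.Prime →
  q ≠ ℓ → ∀ M : ℕ, 0 < M → M.Coprime q → ∀ a b, Vp V M a b → padicValNat q a = 1 → ¬ q ∣ b →
  ∀ e i j : ℕ, ∃ a' b', Vp V M a' b' ∧ a' ≡ i [MOD q ^ e] ∧ b' ≡ j [MOD q ^ e]

/-- N8: the final arithmetic statement -/
def T_N8 : Prop := ∀ (ℓ : ℕ), ℓ.Prime → ∀ (Dg : ℕ → Prop) (T : ℕ → ℕ → Prop), Clos ℓ Dg T →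
  (∀ a b, T a b → a ≠ b ∧ 0 < a ∧ 0 < b) → (∃ a b, T a b) →
  ∀ n : ℕ, n.Coprime ℓ → ∀ i j : ℕ, ∃ a b, T a b ∧ a ≡ i [MOD n] ∧ b ≡ j [MOD n]

end AMq
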