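import Pool.Agent.H87.AQ.Targets

/-!
# V1: irreducible characters of powers (MP_657073_al, residue dichotomy)
-/

open scoped ComplexConjugate

namespace AMq

open AMx

namespace V1

variable {ι : Type} [Fintype ι] [DecidableEq ι] {H : Type} [Group H] [Fintype H]

omit [Group H] in
theorem sum_prod (g : ι → H → ℂ) : ∑ f : ι → H, ∏ i, g i (f i) = ∏ i, ∑ h, g i h := by
  rw [Finset.prod_univ_sum, Fintype.piFinset_univ]

theorem isChar_pw (h3 : AMc.T_A3) (h4 : AMc.T_A4) (τ : ι → H → ℂ) (hτ : ∀ i, τ i ∈ Irr H)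
    (s : Finset ι) : AMc.IsChar (ι → H) (fun f => ∏ i ∈ s, τ i (f i)) := by
  induction s using Finset.induction_on with
  | empty =>
    have := h4.2.2 (ι → H) 1
    simpa using this
  | insert a s ha ih =>
    have h5 : AMc.IsChar (ι → H) (fun f => τ a (f a)) :=
      h4.2.1 (ι → H) H (Pi.evalMonoidHom (fun _ : ι => H) a) (τ a) ((h3 H).1 (τ a) (hτ a)).1
    have h6 := h4.1 (ι → H) _ _ h5 ih
    simpa only [Finset.prod_insert ha] using h6

theorem inner_pw (τ τ' : ι → H → ℂ) :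
    ∑ f : ι → H, pw τ f * conj (pw τ' f) = ∏ i, ∑ h, τ i h * conj (τ' i h) := by
  rw [← sum_prod]
  refine Finset.sum_congr rfl fun f _ => ?_
  rw [pw, pw, map_prod, Finset.prod_mul_distrib]

theorem pw_mem (h1 : AMc.T_A1) (h3 : AMc.T_A3) (h4 : AMc.T_A4) (τ : ι → H → ℂ)
    (hτ : ∀ i, τ i ∈ Irr H) : pw τ ∈ Irr (ι → H) := by
  apply (h3 (ι → H)).2.2.2
  · exact isChar_pw h3 h4 τ hτ Finset.univ
  · rw [inner_pw, Finset.prod_congr rfl fun i _ => h1 H (τ i) (τ i) (hτ i) (hτ i)]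
    simp

theorem pw_inj (h1 : AMc.T_A1) (τ τ' : ι → H → ℂ) (hτ : ∀ i, τ i ∈ Irr H)
    (hτ' : ∀ i, τ' i ∈ Irr H) (h : pw τ = pw τ') : τ = τ' := by
  by_contra hne
  obtain ⟨i, hi⟩ := Function.ne_iff.mp hne
  have e2 : ∏ i, ∑ h, τ i h * conj (τ' i h) = 0 :=
    Finset.prod_eq_zero (Finset.mem_univ i) (by rw [h1 H _ _ (hτ i) (hτ' i), if_neg hi])
  have e1 := inner_pw τ τ'
  rw [← h, inner_pw, e2, Finset.prod_congr rfl fun i _ => h1 H (τ i) (τ i) (hτ i) (hτ i)] at e1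
  simp only [↓reduceIte, Finset.prod_const] at e1
  have : (Nat.card H : ℂ) ≠ 0 := by
    have : 0 < Nat.card H := Nat.card_pos
    exact_mod_cast this.ne'
  exact pow_ne_zero _ this e1

end V1

open V1 in
theorem v1 (h1 : AMc.T_A1) (h3 : AMc.T_A3) (h4 : AMc.T_A4) (hE0 : T_E0) : T_V1 := by
  intro ι _ _ H _ _
  refine ⟨pw_mem h1 h3 h4, ?_, pw_inj h1⟩
  obtain ⟨fs, hfs, -, hf⟩ := hE0 (ι → H)
  obtain ⟨gs, hgs, -, hg⟩ := hE0 H
  have hP : ∀ τ ∈ Fintype.piFinset (fun _ : ι => gs), ∀ i, τ i ∈ Irr H := fun τ hτ i =>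
    (hgs _).mp (Fintype.mem_piFinset.mp hτ i)
  let im := (Fintype.piFinset (fun _ : ι => gs)).image (fun τ => pw τ)
  have him : im ⊆ fs := by
    intro φ hφ
    obtain ⟨τ, hτ, rfl⟩ := Finset.mem_image.mp hφ
    exact (hfs _).mpr (pw_mem h1 h3 h4 τ (hP τ hτ))
  have hsum : ∑ φ ∈ im, φ 1 * φ 1 = (Nat.card (ι → H) : ℂ) := by
    rw [Finset.sum_image (fun τ hτ τ' hτ' h => pw_inj h1 τ τ' (hP τ hτ) (hP τ' hτ') h)]
    have e1 : ∀ τ : ι → H → ℂ, pw τ 1 * pw τ 1 = ∏ i, (τ i 1 * τ i 1) := by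
      intro τ
      rw [pw, ← Finset.prod_mul_distrib]
      rfl
    rw [Finset.sum_congr rfl fun τ _ => e1 τ,
      ← Finset.prod_univ_sum (fun _ : ι => gs) (fun _ χ => χ 1 * χ 1), hg]
    simp
  have hrest : ∑ φ ∈ fs \ im, φ 1 * φ 1 = 0 := by
    have := Finset.sum_sdiff (f := fun φ : (ι → H) → ℂ => φ 1 * φ 1) him
    rw [hsum, hf] at this
    linear_combination this
  intro φ hφ
  by_contra hno
  push Not at hno
  have hmem : φ ∈ fs \ im := by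
    rw [Finset.mem_sdiff]
    refine ⟨(hfs φ).mpr hφ, fun h => ?_⟩
    obtain ⟨τ, hτ, h'⟩ := Finset.mem_image.mp h
    exact hno τ (hP τ hτ) h'
  have hd : ∀ φ : (ι → H) → ℂ, ∃ d : ℕ, φ ∈ fs → 0 < d ∧ φ 1 = d := by
    intro φ
    by_cases h : φ ∈ fs
    · obtain ⟨d, hd, hd'⟩ := ((h3 (ι → H)).1 φ ((hfs φ).mp h)).2
      exact ⟨d, fun _ => ⟨hd, hd'⟩⟩
    · exact ⟨0, fun h' => absurd h' h⟩
  choose d hd using hd
  have hnat : ∑ φ ∈ fs \ im, d φ * d φ = 0 := by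
    have : ((∑ φ ∈ fs \ im, d φ * d φ : ℕ) : ℂ) = 0 := by
      push_cast
      rw [← hrest]
      refine Finset.sum_congr rfl fun ψ hψ => ?_
      rw [(hd ψ (Finset.mem_sdiff.mp hψ).1).2]
    exact_mod_cast this
  have h0 := (Finset.sum_eq_zero_iff.mp hnat) φ hmem
  have h5 := (hd φ ((hfs φ).mpr hφ)).1
  exact absurd h0 (Nat.mul_pos h5 h5).ne'

end AMq
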