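import Pool.Agent.H54.AQ.Q1
import Pool.Agent.H80.AQ.W5
import Pool.Agent.H3.AQ.KA

/-!
# W1: blocks above tuples (MP_657073_al, residue dichotomy)
-/

open scoped Classical

namespace AMq

open AMx W5aux

namespace W1

variable {q : ℕ} {X H : Type} [Group X] [Group H]

/-- `∏ i, y (f i)` is invariant under `sg` -/
theorem prod_sg [NeZero q] (F : Cy q X (ZMod q → H)) (hF : F.Wr) (y : H → ℂ) (c : ℕ) :
    ∀ f : ZMod q → H, ∏ i, y ((F.sg ^ c) f i) = ∏ i, y (f i) := by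
  induction c with
  | zero => intro f; simp
  | succ c ih =>
    intro f
    rw [pow_succ, MulAut.mul_apply, ih]
    simp only [hF f]
    exact Fintype.prod_equiv (Equiv.addRight (1 : ZMod q)) _ _ (fun i => rfl)

/-- the function `io f ↦ ∏ i, y (f i)` -/
noncomputable def ext [NeZero q] [Fintype H] (F : Cy q X (ZMod q → H)) (y : H → ℂ) : X → ℂ :=
  fun x => ∑ f : ZMod q → H, if F.io f = x then ∏ i, y (f i) else 0

theorem ext_io [NeZero q] [Fintype H] (F : Cy q X (ZMod q → H)) (y : H → ℂ) (f : ZMod q → H) :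
    ext F y (F.io f) = ∏ i, y (f i) := by
  unfold ext
  rw [Finset.sum_eq_single f]
  · rw [if_pos rfl]
  · intro g _ hg
    exact if_neg (fun h => hg (F.inj h))
  · intro h
    exact absurd (Finset.mem_univ _) h

theorem ext_off [NeZero q] [Fintype H] (F : Cy q X (ZMod q → H)) (y : H → ℂ) (x : X)
    (hx : F.p x ≠ 1) : ext F y x = 0 := by
  unfold ext
  refine Finset.sum_eq_zero fun f _ => if_neg fun h => hx ?_
  rw [← h]
  exact F.p_io f

theorem ext_cf [NeZero q] [Fintype H] (F : Cy q X (ZMod q → H)) (hF : F.Wr) (y : H → ℂ)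
    (hy : CF y) : CF (ext F y) := by
  intro g x
  have hp : F.p (g * x * g⁻¹) = F.p x := by
    rw [map_mul, map_mul, map_inv, mul_comm, inv_mul_cancel_left]
  by_cases hx : F.p x = 1
  · obtain ⟨f, rfl⟩ := (F.ker x).mp hx
    obtain ⟨c, -, k, rfl⟩ := F.decomp g
    have h : F.s ^ c * F.io k * F.io f * (F.s ^ c * F.io k)⁻¹ =
        F.io ((F.sg ^ c) (k * f * k⁻¹)) := by
      rw [← F.s_pow_conj, map_mul, map_mul, map_inv]
      group
    rw [h, ext_io, ext_io, prod_sg F hF]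
    exact Finset.prod_congr rfl fun i _ => hy (k i) (f i)
  · rw [ext_off F y x hx, ext_off F y _ (by rw [hp]; exact hx)]

theorem ext_int [NeZero q] [Fintype H] (F : Cy q X (ZMod q → H)) (y : H → ℂ)
    (hy : ∀ h, IsIntegral ℤ (y h)) (x : X) : IsIntegral ℤ (ext F y x) := by
  unfold ext
  refine IsIntegral.sum _ fun f _ => ?_
  by_cases h : F.io f = x
  · rw [if_pos h]
    exact IsIntegral.prod _ fun i _ => hy _
  · rw [if_neg h]
    exact isIntegral_zero

end W1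

open W1 in
theorem w1 (hC1 : AMx.T_C1) (hL0 : AMx.T_L0) (hL1 : AMx.T_L1) (hQ2 : T_Q2) (hQ4 : T_Q4)
    (hV1 : T_V1) (hV2 : T_V2) : T_W1 := by
  intro 𝔪 hm q hq X H _ _ _ _ F hF χ hχ τ₀ τ hτ₀ hinv hτ φ hφ hov hsame i
  obtain ⟨L1, L2, L3, L4, L5, L6, L7, L8⟩ := hL0 𝔪 hm
  refine ⟨hτ i, ?_⟩
  by_contra hnb
  unfold SameBlock at hnb
  push Not at hnb
  obtain ⟨h₀, hh₀⟩ := hnb
  set t := cen (MonoidHom.id H) (τ i) h₀ with ht
  have htint : IsIntegral ℤ t := (hC1 H _ (hτ i)).2.2.2 h₀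
  let y : H → ℂ := fun g => ci h₀ g - (if g = 1 then t else 0)
  have hyc : CF y := by
    intro g x
    show ci h₀ (g * x * g⁻¹) - _ = ci h₀ x - _
    rw [ci_cf h₀ g x]
    have := cf_delta t g x
    simp only at this
    rw [this]
  have hyi : ∀ h, IsIntegral ℤ (y h) := by
    intro h
    refine (ci_int h₀ h).sub ?_
    by_cases h1 : h = 1
    · rw [if_pos h1]; exact htint
    · rw [if_neg h1]; exact isIntegral_zero
  have hne : ∀ {A : Type} [Group A] [Fintype A] {f : A → ℂ}, f ∈ Irr A → f 1 ≠ 0 := by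
    intro A _ _ f hf
    obtain ⟨_, ⟨d, hd, hd1⟩, _⟩ := hC1 A f hf
    rw [hd1]
    exact_mod_cast hd.ne'
  have hw : ∀ θ ∈ Irr H, (∑ h, y h * θ h) / θ 1 = cen (MonoidHom.id H) θ h₀ - t := by
    intro θ hθ
    have e1 : ∑ h, (if h = 1 then t else 0) * θ h = t * θ 1 := by
      rw [Finset.sum_eq_single (1 : H)]
      · rw [if_pos rfl]
      · intro b _ hb
        rw [if_neg hb, zero_mul]
      · intro h
        exact absurd (Finset.mem_univ _) h
    have e2 : ∑ h, y h * θ h = ∑ h, ci h₀ h * θ h - t * θ 1 := by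
      rw [← e1, ← Finset.sum_sub_distrib]
      exact Finset.sum_congr rfl fun h _ => sub_mul _ _ _
    rw [e2, sub_div, mul_div_cancel_right₀ _ (hne hθ), cen_ci]
    rfl
  have hpw : pw τ ∈ Irr (ZMod q → H) := (hV1 (ZMod q) H).1 τ hτ
  have hpw₀ : pw τ₀ ∈ Irr (ZMod q → H) := (hV1 (ZMod q) H).1 τ₀ fun k => (hτ₀ k).1
  obtain ⟨hind, hov₀, -⟩ := hQ2 q X _ F (pw τ₀) hpw₀ hinv
  have e1 := (hQ4 q X _ F φ hφ).2.2.2 (pw τ) hpw hov (ext F y) (ext_cf F hF y hyc)
    (fun x hx => ext_off F y x hx)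
  have e2 := (hQ4 q X _ F _ hind).2.2.2 (pw τ₀) hpw₀ hov₀ (ext F y) (ext_cf F hF y hyc)
    (fun x hx => ext_off F y x hx)
  simp only [ext_io] at e1 e2
  have hV := hV2 𝔪 hm (ZMod q) H
  rw [hV.2.2 y τ] at e1
  rw [hV.2.2 y τ₀] at e2
  have e3 : (∑ x, ext F y x * φ x) / φ 1 = 0 := by
    rw [e1]
    refine Finset.prod_eq_zero (Finset.mem_univ i) ?_
    rw [hw _ (hτ i), ← ht, sub_self]
  have hcf : CF (F.ind (pw τ₀)) := (hC1 X _ hind).1.cf
  have e4 := hL1 𝔪 X X (MonoidHom.id X) (F.ind (pw τ₀)) φ hcf hsame (ext F y)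
    (ext_cf F hF y hyc) (ext_int F y hyi)
  simp only [MonoidHom.id_apply] at e4
  rw [e3, e2] at e4
  -- no factor is congruent to zero
  have hnot : ∀ k, ¬ Cong 𝔪 ((∑ h, y h * τ₀ k h) / τ₀ k 1) 0 := by
    intro k hk
    rw [hw _ (hτ₀ k).1] at hk
    apply hh₀
    have h1 := (hτ₀ k).2 h₀
    have h2 := L4 _ _ _ _ hk (L1 t)
    rw [sub_add_cancel, zero_add] at h2
    exact L3 _ _ _ h1 h2
  have hkint : ∀ k, IsIntegral ℤ ((∑ h, y h * τ₀ k h) / τ₀ k 1) := by
    intro k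
    rw [hw _ (hτ₀ k).1]
    exact ((hC1 H _ (hτ₀ k).1).2.2.2 h₀).sub htint
  have hprod : ∀ s : Finset (ZMod q), ¬ Cong 𝔪 (∏ k ∈ s, (∑ h, y h * τ₀ k h) / τ₀ k 1) 0 := by
    intro s
    induction s using Finset.induction_on with
    | empty => rw [Finset.prod_empty]; exact not_cong_one hm
    | insert a s ha ih =>
      rw [Finset.prod_insert ha]
      intro h
      rcases L7 _ _ (hkint a) (IsIntegral.prod _ fun k _ => hkint k) h with h | h
      · exact hnot a h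
      · exact ih h
  exact hprod Finset.univ e4

end AMq
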