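import Pool.Agent.H87.AQ.Targets

/-!
# W4: the normaliser in a wreath product (MP_657073_al, residue dichotomy)
-/

namespace AMq

open AMx

namespace W4

variable {q : ℕ} {X H : Type} [Group X] [Group H]

theorem mem_pS {ι : Type} {D : Subgroup H} {f : ι → H} : f ∈ pS ι D ↔ ∀ i, f i ∈ D := by
  simp [pS, Subgroup.mem_pi]

theorem io_mem (F : Cy q X (ZMod q → H)) (D : Subgroup H) (f : ZMod q → H) :
    F.io f ∈ Subgroup.normalizer (((pS (ZMod q) D).map F.io : Subgroup X) : Set X) ↔
      ∀ i, f i ∈ Subgroup.normalizer (D : Set H) := by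
  have him : ∀ g : ZMod q → H, F.io g ∈ (pS (ZMod q) D).map F.io ↔ ∀ i, g i ∈ D := by
    intro g
    rw [← mem_pS]
    exact Subgroup.mem_map_iff_mem F.inj
  constructor
  · intro h i
    rw [Subgroup.mem_normalizer_iff] at h ⊢
    intro d
    have h1 := h (F.io (Pi.mulSingle i d))
    rw [← map_inv, ← map_mul, ← map_mul] at h1
    change F.io _ ∈ (pS (ZMod q) D).map F.io ↔ F.io _ ∈ (pS (ZMod q) D).map F.io at h1
    rw [him, him] at h1
    change d ∈ D ↔ _ ∈ D
    constructor
    · intro hd
      have h2 := h1.mp (by
        intro k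
        by_cases hk : k = i
        · subst hk; simpa using hd
        · simp [hk, D.one_mem]) i
      simpa using h2
    · intro hd
      have h2 := h1.mpr (by
        intro k
        by_cases hk : k = i
        · subst hk; simpa using hd
        · simp [hk, D.one_mem]) i
      simpa using h2
  · intro h
    rw [Subgroup.mem_normalizer_iff]
    intro x
    change x ∈ (pS (ZMod q) D).map F.io ↔ _ ∈ (pS (ZMod q) D).map F.io
    constructor
    · rintro ⟨d, hd, rfl⟩
      rw [← map_inv, ← map_mul, ← map_mul, him]
      intro i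
      exact (Subgroup.mem_normalizer_iff.mp (h i) (d i)).mp (mem_pS.mp hd i)
    · rintro ⟨d, hd, hx⟩
      have hx' : x = F.io (f⁻¹ * d * f) := by
        rw [map_mul, map_mul, hx, map_inv]
        group
      rw [hx', him]
      intro i
      refine (Subgroup.mem_normalizer_iff.mp (h i) _).mpr ?_
      have : f i * (f⁻¹ * d * f) i * (f i)⁻¹ = d i := by
        simp only [Pi.mul_apply, Pi.inv_apply]
        group
      rw [this]
      exact mem_pS.mp hd i

theorem s_mem (F : Cy q X (ZMod q → H)) (hF : F.Wr) (D : Subgroup H) :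
    F.s ∈ Subgroup.normalizer (((pS (ZMod q) D).map F.io : Subgroup X) : Set X) := by
  rw [Subgroup.mem_normalizer_iff]
  intro x
  change x ∈ (pS (ZMod q) D).map F.io ↔ _ ∈ (pS (ZMod q) D).map F.io
  constructor
  · rintro ⟨d, hd, rfl⟩
    refine ⟨F.sg d, ?_, (F.cj d).symm⟩
    exact mem_pS.mpr fun i => by rw [hF]; exact mem_pS.mp hd _
  · rintro ⟨d, hd, hx⟩
    refine ⟨F.sg.symm d, ?_, ?_⟩
    · refine mem_pS.mpr fun i => ?_
      have h1 := hF (F.sg.symm d) (i - 1)
      rw [sub_add_cancel] at h1
      rw [← h1]
      have h2 : F.sg (F.sg.symm d) = d := F.sg.apply_symm_apply d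
      rw [h2]
      exact mem_pS.mp hd _
    · have h3 := F.cj (F.sg.symm d)
      have h2 : F.sg (F.sg.symm d) = d := F.sg.apply_symm_apply d
      rw [h2, hx] at h3
      exact mul_left_cancel (mul_right_cancel h3)

/-- the shift -/
def shift (q : ℕ) (N : Type) [Group N] : MulAut (ZMod q → N) where
  toFun f := fun i => f (i + 1)
  invFun f := fun i => f (i - 1)
  left_inv f := by funext i; simp
  right_inv f := by funext i; simp
  map_mul' _ _ := rfl

end W4

open W4 in
theorem w4 : T_W4 := by
  intro q _ X H _ _ _ _ F hF D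
  let N := Subgroup.normalizer (D : Set H)
  let M := Subgroup.normalizer (((pS (ZMod q) D).map F.io : Subgroup X) : Set X)
  let F' : Cy q M (ZMod q → N) :=
    { io :=
        { toFun := fun f => ⟨F.io (fun i => (f i : H)), (io_mem F D _).mpr fun i => (f i).2⟩
          map_one' := by
            apply Subtype.ext
            exact map_one F.io
          map_mul' := fun f g => by
            apply Subtype.ext
            exact map_mul F.io (fun i => (f i : H)) (fun i => (g i : H)) }
      inj := by
        intro f g h
        have h1 := F.inj (congrArg Subtype.val h)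
        funext i
        exact Subtype.ext (congrFun h1 i)
      p := F.p.comp M.subtype
      ker := by
        intro x
        constructor
        · intro hx
          obtain ⟨k, hk⟩ := (F.ker (x : X)).mp hx
          have hk' : F.io k ∈ M := by rw [hk]; exact x.2
          refine ⟨fun i => ⟨k i, (io_mem F D k).mp hk' i⟩, ?_⟩
          apply Subtype.ext
          exact hk
        · rintro ⟨k, rfl⟩
          exact (F.ker _).mpr ⟨_, rfl⟩
      s := ⟨F.s, s_mem F hF D⟩
      ps := F.ps
      sg := shift q N
      cj := by
        intro k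
        apply Subtype.ext
        change F.s * F.io (fun i => (k i : H)) * F.s⁻¹ = F.io (fun i => (k (i + 1) : H))
        rw [F.cj]
        congr 1
        funext i
        rw [hF] }
  refine ⟨F', fun f i => rfl, fun f => rfl, rfl, fun x => rfl, ?_⟩
  ext x
  constructor
  · rintro ⟨f, hf, rfl⟩
    rw [Subgroup.mem_subgroupOf]
    refine ⟨fun i => (f i : H), mem_pS.mpr fun i => ?_, rfl⟩
    exact Subgroup.mem_subgroupOf.mp (mem_pS.mp hf i)
  · intro hx
    rw [Subgroup.mem_subgroupOf] at hx
    obtain ⟨d, hd, hdx⟩ := hx
    have hd' := mem_pS.mp hd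
    refine ⟨fun i => ⟨d i, Subgroup.le_normalizer (hd' i)⟩, mem_pS.mpr fun i => ?_, ?_⟩
    · exact Subgroup.mem_subgroupOf.mpr (hd' i)
    · apply Subtype.ext
      exact hdx

end AMq
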