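import Pool.Agent.H87.AQ.Fin
import Pool.Agent.H59.AMX.X1
import Pool.Agent.H88.AMX.B2
import Pool.Agent.H88.AMX.B3
import Pool.Agent.H88.AMX.B6
import Pool.Agent.H3.AM.A2
import Pool.Agent.H21.AM.A4
import Pool.Agent.H69.AM.C1
import Pool.Agent.H14.AQ.E0
import Pool.Agent.H14.AQ.M1
import Pool.Agent.H3.AQ.K0
import Pool.Agent.H3.AQ.KA
import Pool.Agent.H3.AQ.KB
import Pool.Agent.H3.AQ.KC
import Pool.Agent.H77.AQ.N1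
import Pool.Agent.H77.AQ.N3
import Pool.Agent.H77.AQ.N4
import Pool.Agent.H62.AQ.N2
import Pool.Agent.H62.AQ.N5
import Pool.Agent.H62.AQ.N8
import Pool.Agent.H86.AQ.N6
import Pool.Agent.H86.AQ.N7
import Pool.Agent.H86.AQ.W2
import Pool.Agent.H54.AQ.Q1
import Pool.Agent.H54.AQ.Q3
import Pool.Agent.H54.AQ.Q5
import Pool.Agent.H4.AQ.Q2
import Pool.Agent.H4.AQ.U1
import Pool.Agent.H4.AQ.W3
import Pool.Agent.H4.AQ.W7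
import Pool.Agent.H80.AQ.R1
import Pool.Agent.H80.AQ.U2
import Pool.Agent.H80.AQ.V2
import Pool.Agent.H80.AQ.W5
import Pool.Agent.H58.AQ.B7D
import Pool.Agent.H58.AQ.W6
import Pool.Agent.H87.AQ.V1
import Pool.Agent.H87.AQ.W1
import Pool.Agent.H87.AQ.W4

/-!
# Alperin–McKay: all facts used in the final theorem
-/

open AMx

namespace AMq

section

theorem a_E0 : T_E0 := e0 AMc.t_A1 (AMc.t_A2 AMc.t_A3) AMc.t_A3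
theorem a_M1 : T_M1 := m1 AMc.t_A3 AMc.a4
theorem a_M2 : T_M2 := m2 C1 C2
theorem a_Q1 : T_Q1 := q1 C1 C2
theorem a_Q2 : T_Q2 := q2 C1 AMc.t_A1 a_E0 a_Q1 a_M1
theorem a_Q4 : T_Q4 := q4 C1 AMc.t_A1 (AMc.t_A2 AMc.t_A3) a_E0 a_Q1 a_M1
theorem a_Q3 : T_Q3 := q3 a_E0 a_M1 a_M2 a_Q4
theorem a_Q5 : T_Q5 := q5 a_E0 a_Q2 a_Q3 a_Q4
theorem a_R1 : T_R1 := r1 C1 l0 l1 a_Q1 a_Q2 a_Q4
theorem a_V2 : T_V2 := v2 C1 l0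
theorem a_V3 : T_V3 := v3 C1 l0
theorem a_U1 : T_U1 := u1 C1 C2 l0 P1 (p2 C1 l0 l2 P1)
theorem a_U2 : T_U2 := u2 C1 C2 l0
theorem a_KA : T_KA := ka C1 l0 l1 a_E0
theorem a_KC : T_KC := kc AMc.d1
theorem a_K0 : T_K0 := k0_pos C1 l0 l2 a_E0 a_KA kb a_KC
theorem a_N1 : T_N1 := n1
theorem a_N3 : T_N3 := n3 n1
theorem a_N8 : T_N8 := n8 (n2 n1) (n4 n1 a_N3) (n6 n1 a_N3 n5) (n7 n1 a_N3 n5)
theorem a_X1 : T_X1N := x1N x1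
theorem a_B7D : T_B7D := by
  have hF0 : T_F0 := Pool.Agent.H36.AM.f0
  have hF1 : T_F1 := Pool.Agent.H36.AM.f1
  have hF2 : T_F2 := Pool.Agent.H36.AM.f2
  have hF3 : T_F3 := f3 C1 C2 hF0 hF1 hF2
  have hF4 : T_F4 := f4 C1 hF0 hF1 hF3
  have hB1 : T_B1 := B1 L3 hF0
  have hB2 : T_B2 := b2 C1 l0 l1 hF0 hF1 hF3 hF4
  have hB3 : T_B3 := b3 C1 l0 l2 L3 hF0 hF1 hF3 hF4 hB1
  have hB6 : T_B6 := b6 l0 l1 l2 C1 hF0 hF1 hB1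
  exact b7d hF3 hB3 (b4 C1 hF0 hF1 hF3 hB2) b5 hB6

theorem a_V1 : T_V1 := v1 AMc.t_A1 AMc.t_A3 AMc.a4 a_E0
theorem a_W1 : T_W1 := w1 C1 l0 l1 a_Q2 a_Q4 a_V1 a_V2
theorem a_W2 : T_W2 := w2 C1 l0 l2 a_Q1 a_V1 a_V2
theorem a_W3 : T_W3 := w3 C1 l0 a_Q1 a_Q2 a_Q3 a_Q4 a_Q5 a_V1 a_V2 a_R1 a_W1
theorem a_W5 : T_W5 := w5 C1 l1 a_Q1 a_V1 a_V3
theorem a_W7 : T_W7 := w7 C1 l0 l1 a_Q2 a_V1 a_W2 a_W3 w4 a_W5 w6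

end

end AMq
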