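import Pool.Agent.H4.AM.Targets
import Pool.Agent.H3.AM.Targets

/-!
# Alperin–McKay (MP_657073_al): residue dichotomy. Definitions

`AMx` (helper4): `Irr`, `Cong`, `cen`, `SameBlock`, `IsDefect`, `Corr`, `k0`, `Brauer`, `CF`,
`conv`, `IsIrr`, proved facts `AMx.C1`, `C2`, `C3`, `l0`, `l1`, `l2`, `L3`, `P1`, `p2`, `p3`.
-/

open scoped Classical ComplexConjugate

namespace AMq

open AMx

/-! ## Statement-level definitions -/

/-- `P (k₀(b)) (k₀(B))` for all blocks `b` of `G` whose defect group lies in the class `𝓓`, with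
Brauer correspondents `B` -/
def AMrelD (ℓ : ℕ) (𝔪 : Ideal (integralClosure ℤ ℂ)) (𝓓 : (D : Type) → [Group D] → Prop)
    (P : ℕ → ℕ → Prop) (G : Type) [Group G] [Fintype G] : Prop :=
  ∀ (D : Subgroup G) (χ : G → ℂ) (ψ : Subgroup.normalizer (D : Set G) → ℂ), Brauer ℓ 𝔪 D χ ψ →
    𝓓 D → P (k0 ℓ 𝔪 χ D) (k0 ℓ 𝔪 ψ (D.subgroupOf (Subgroup.normalizer (D : Set G))))

/-- the class `𝓓` of groups is closed under isomorphisms and direct products and contains the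
cyclic group of order `ℓ` -/
structure Closed (ℓ : ℕ) (𝓓 : (D : Type) → [Group D] → Prop) : Prop where
  iso : ∀ (D E : Type) [Group D] [Group E], Nonempty (D ≃* E) → 𝓓 D → 𝓓 E
  prod : ∀ (D E : Type) [Group D] [Group E], 𝓓 D → 𝓓 E → 𝓓 (D × E)
  cyc : 𝓓 (Multiplicative (ZMod ℓ))

/-! ## Normal subgroups of index `q` -/

/-- `io : K → X` is injective with image the kernel of the surjection `p : X → ℤ/q`, `p s = 1`,
and `sg` is conjugation by `s` on `K` -/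
structure Cy (q : ℕ) (X K : Type) [Group X] [Group K] where
  io : K →* X
  inj : Function.Injective io
  p : X →* Multiplicative (ZMod q)
  ker : ∀ x, p x = 1 ↔ ∃ k, io k = x
  s : X
  ps : p s = Multiplicative.ofAdd 1
  sg : MulAut K
  cj : ∀ k, s * io k * s⁻¹ = io (sg k)

namespace Cy

variable {q : ℕ} {X K : Type} [Group X] [Group K]

/-- the induced function -/
noncomputable def ind [Fintype K] (F : Cy q X K) (θ : K → ℂ) : X → ℂ :=
  fun x => ∑ k : K, if F.io k = x then ∑ c ∈ Finset.range q, θ ((F.sg ^ c) k) else 0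

/-- `χ` lies over `θ` -/
def Ov [Fintype K] (F : Cy q X K) (χ : X → ℂ) (θ : K → ℂ) : Prop :=
  ∑ k : K, χ (F.io k) * conj (θ k) ≠ 0

/-- `θ` is invariant -/
def Inv (F : Cy q X K) (θ : K → ℂ) : Prop := ∀ k, θ (F.sg k) = θ k

/-- `X` is the wreath product `H ≀ C_q` (up to the choice of the complement) -/
def Wr {H : Type} [Group H] (F : Cy q X (ZMod q → H)) : Prop := ∀ f i, F.sg f i = f (i + 1)

end Cy

/-! ## Powers -/

/-- the product function `f ↦ ∏ i, τ i (f i)` on a power of `H` -/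
noncomputable def pw {ι H : Type} [Fintype ι] (τ : ι → H → ℂ) : (ι → H) → ℂ :=
  fun f => ∏ i, τ i (f i)

/-- the power of a subgroup -/
def pS {H : Type} [Group H] (ι : Type) (D : Subgroup H) : Subgroup (ι → H) :=
  Subgroup.pi Set.univ (fun _ => D)

/-- all entries of `τ` are irreducible characters in the block of `χ` -/
def Tup {ι H : Type} [Group H] [Fintype H] (𝔪 : Ideal (integralClosure ℤ ℂ)) (χ : H → ℂ)
    (τ : ι → H → ℂ) : Prop := ∀ i, τ i ∈ Irr H ∧ SameBlock 𝔪 χ (τ i)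

/-! ## Convolution powers -/

/-- convolution powers -/
noncomputable def cpow {G : Type} [Group G] [Fintype G] (z : G → ℂ) : ℕ → G → ℂ
  | 0 => fun x => if x = 1 then 1 else 0
  | n + 1 => conv (cpow z n) z

/-! ## Arithmetic -/

/-- `((x^q + (q^2-1) x)/q` -/
def th (q x : ℕ) : ℕ := (x ^ q + (q ^ 2 - 1) * x) / q

/-- closure properties of a relation `T` and a set `Dg` of diagonal elements -/
structure Clos (ℓ : ℕ) (Dg : ℕ → Prop) (T : ℕ → ℕ → Prop) : Prop where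
  dl : Dg ℓ
  dm : ∀ a b, Dg a → Dg b → Dg (a * b)
  dt : ∀ q : ℕ, q.Prime → q ≠ ℓ → ∀ a, Dg a → Dg (th q (ℓ * a))
  tm : ∀ a b c d, T a b → T c d → T (a * c) (b * d)
  td : ∀ a b c, Dg c → T a b → T (c * a) (c * b)
  tt : ∀ q : ℕ, q.Prime → q ≠ ℓ → ∀ a b, T a b → T (th q (ℓ * a)) (th q (ℓ * b))

/-- virtual pairs: `(a, b)` is a limit of elements of `T` at all moduli prime to `ℓ` -/
def Vt (ℓ : ℕ) (T : ℕ → ℕ → Prop) (a b : ℕ) : Prop :=
  ∀ n : ℕ, n.Coprime ℓ → ∃ a' b', T a' b' ∧ a' ≡ a [MOD n] ∧ b' ≡ b [MOD n]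

/-- closure properties of the virtual pairs -/
structure VC (ℓ : ℕ) (V : ℕ → ℕ → Prop) : Prop where
  mul : ∀ a b c d, V a b → V c d → V (a * c) (b * d)
  sc : ∀ a b c, V a b → V (c * a) (c * b)
  th : ∀ q : ℕ, q.Prime → q ≠ ℓ → ∀ a b, V a b → V (th q a) (th q b)

/-- virtual pairs with distinct positive entries, `≡ (1, 1)` modulo `M` -/
def Vp (V : ℕ → ℕ → Prop) (M a b : ℕ) : Prop :=
  V a b ∧ a ≠ b ∧ 0 < a ∧ 0 < b ∧ a ≡ 1 [MOD M] ∧ b ≡ 1 [MOD M]

/-! ## Pairs -/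

/-- `(x, y) = (k₀(b), k₀(B))` for an `ℓ`-block `b` of a finite group with defect group in `𝓓` -/
def Pr (ℓ : ℕ) (𝔪 : Ideal (integralClosure ℤ ℂ)) (𝓓 : (D : Type) → [Group D] → Prop)
    (x y : ℕ) : Prop :=
  ∃ (G : Type) (_ : Group G) (_ : Fintype G) (D : Subgroup G) (χ : G → ℂ)
    (ψ : Subgroup.normalizer (D : Set G) → ℂ), Brauer ℓ 𝔪 D χ ψ ∧ 𝓓 D ∧ k0 ℓ 𝔪 χ D = x ∧
      k0 ℓ 𝔪 ψ (D.subgroupOf (Subgroup.normalizer (D : Set G))) = y

end AMq
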