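import Pool.Agent.H87.AQ.Targets
import Pool.Agent.H4.AMX.Final

/-!
# Alperin–McKay (MP_657073_al): residue dichotomy. Assembly
-/

open scoped Classical ComplexConjugate commutatorElement

namespace AMq

open AMx

section

variable {ℓ : ℕ} [Fact ℓ.Prime] {𝔪 : Ideal (integralClosure ℤ ℂ)}
  {𝓓 : (D : Type) → [Group D] → Prop}

theorem pr_mul (hU1 : T_U1) (hm : 𝔪.IsMaximal) (hl : (ℓ : integralClosure ℤ ℂ) ∈ 𝔪)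
    (h𝓓 : Closed ℓ 𝓓) {a b c d : ℕ} (h : Pr ℓ 𝔪 𝓓 a b) (h' : Pr ℓ 𝔪 𝓓 c d) :
    Pr ℓ 𝔪 𝓓 (a * c) (b * d) := by
  obtain ⟨G, _, _, D, χ, ψ, hB, hD, rfl, rfl⟩ := h
  obtain ⟨K, _, _, E, χ', ψ', hB', hE, rfl, rfl⟩ := h'
  obtain ⟨e, h1, h2, h3, -, -⟩ := hU1 ℓ 𝔪 hm hl G K D E χ χ χ' χ' ψ ψ ψ' ψ' hB hB'
  refine ⟨G × K, inferInstance, inferInstance, D.prod E, _, _, h1, ?_, h2, h3⟩
  exact h𝓓.iso _ _ ⟨(Subgroup.prodEquiv D E).symm⟩ (h𝓓.prod _ _ hD hE)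

theorem pr_ell (hU2 : T_U2) (hm : 𝔪.IsMaximal) (hl : (ℓ : integralClosure ℤ ℂ) ∈ 𝔪)
    (h𝓓 : Closed ℓ 𝓓) : Pr ℓ 𝔪 𝓓 ℓ ℓ := by
  obtain ⟨χ₂, ψ₂, h1, h2, h3, -⟩ := hU2 ℓ 𝔪 hm hl
  exact ⟨Multiplicative (ZMod ℓ), inferInstance, inferInstance, ⊤, _, _, h1,
    h𝓓.iso _ _ ⟨Subgroup.topEquiv.symm⟩ h𝓓.cyc, h2, h3⟩

theorem pr_pos (hK0 : T_K0) (hm : 𝔪.IsMaximal) (hl : (ℓ : integralClosure ℤ ℂ) ∈ 𝔪)
    {a b : ℕ} (h : Pr ℓ 𝔪 𝓓 a b) : 0 < a ∧ 0 < b := by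
  obtain ⟨G, _, _, D, χ, ψ, hB, hD, rfl, rfl⟩ := h
  exact ⟨hK0 ℓ 𝔪 hm hl G χ hB.1 D hB.2.2.1, hK0 ℓ 𝔪 hm hl _ ψ hB.2.1 _ hB.2.2.2.1⟩

theorem pr_th (hC1 : T_C1) (hU1 : T_U1) (hU2 : T_U2) (hW7 : T_W7) (hm : 𝔪.IsMaximal)
    (hl : (ℓ : integralClosure ℤ ℂ) ∈ 𝔪) (h𝓓 : Closed ℓ 𝓓) {q : ℕ} (hq : q.Prime) (hql : q ≠ ℓ)
    {a b : ℕ} (h : Pr ℓ 𝔪 𝓓 a b) : Pr ℓ 𝔪 𝓓 (th q (ℓ * a)) (th q (ℓ * b)) := by
  haveI : Fact q.Prime := ⟨hq⟩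
  obtain ⟨G, _, _, D, χ, ψ, hB, hD, rfl, rfl⟩ := h
  obtain ⟨χ₂, ψ₂, h1, h2, h3, h4, ⟨x₀, h5⟩, h5', h6, h7, ⟨y₀, h8⟩, h8', h9⟩ := hU2 ℓ 𝔪 hm hl
  obtain ⟨e, g1, g2, g3, g4, g5⟩ := hU1 ℓ 𝔪 hm hl G (Multiplicative (ZMod ℓ)) D ⊤ χ χ
    (fun _ => 1) χ₂ ψ ψ (fun _ => 1) ψ₂ hB h1
  have hne : ∀ {A : Type} [Group A] [Fintype A] {f : A → ℂ}, f ∈ Irr A → f 1 ≠ 0 := by
    intro A _ _ f hf
    obtain ⟨_, ⟨d, hd, hd1⟩, _⟩ := hC1 A f hf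
    rw [hd1]
    exact_mod_cast hd.ne'
  have hrefl : ∀ {A : Type} [Group A] [Fintype A] (f : A → ℂ), SameBlock 𝔪 f f := by
    intro A _ _ f x
    exact ⟨0, 𝔪.zero_mem, by simp⟩
  obtain ⟨k1, k2⟩ := g4 hB.1 h4 (hrefl χ) h6
  obtain ⟨k3, k4⟩ := g5 hB.2.1 h7 (hrefl ψ) h9
  have h10 := hW7 ℓ 𝔪 hm hl q hql (G × Multiplicative (ZMod ℓ)) (D.prod ⊤) _ _ g1
    ⟨_, k1, ?_, k2⟩ ⟨_, k3, ?_, k4⟩ 𝓓 h𝓓
    (h𝓓.iso _ _ ⟨(Subgroup.prodEquiv D ⊤).symm⟩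
      (h𝓓.prod _ _ hD (h𝓓.iso _ _ ⟨Subgroup.topEquiv.symm⟩ h𝓓.cyc)))
  · rw [g2, g3, h2, h3, mul_comm _ ℓ, mul_comm _ ℓ] at h10
    exact h10
  · intro heq
    have := congrFun heq (1, x₀)
    simp only [mul_one] at this
    exact h5 (mul_left_cancel₀ (hne hB.1) (this.trans (mul_one _).symm))
  · intro heq
    have := congrFun heq (e.symm (1, y₀))
    simp only [MulEquiv.apply_symm_apply, mul_one] at this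
    exact h8 (mul_left_cancel₀ (hne hB.2.1) (this.trans (mul_one _).symm))

theorem th_mono (hN1 : T_N1) {q x y : ℕ} (hq : q.Prime) (h : x < y) : th q x < th q y :=
  (hN1 q hq).2.2.2.2.2.1 x y h

/-- if `k₀(b) < k₀(B)` or `>` happens, then all residues happen, with arbitrarily large ratio -/
theorem dense (hC1 : T_C1) (hU1 : T_U1) (hU2 : T_U2) (hW7 : T_W7) (hK0 : T_K0) (hN1 : T_N1)
    (hN8 : T_N8) (hm : 𝔪.IsMaximal) (hl : (ℓ : integralClosure ℤ ℂ) ∈ 𝔪) (h𝓓 : Closed ℓ 𝓓)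
    (S : ℕ → ℕ → Prop) (hS : (∀ a b, S a b ↔ b < a) ∨ (∀ a b, S a b ↔ a < b))
    {a b : ℕ} (h : Pr ℓ 𝔪 𝓓 a b) (hab : S a b) (n : ℕ) (hn : n.Coprime ℓ) (i j : ℕ) :
    ∃ x y, Pr ℓ 𝔪 𝓓 x y ∧ S x y ∧ x ≡ i [MOD n] ∧ y ≡ j [MOD n] := by
  have hℓ : ℓ.Prime := Fact.out
  have hcl : Clos ℓ (fun m => Pr ℓ 𝔪 𝓓 m m) (fun x y => Pr ℓ 𝔪 𝓓 x y ∧ S x y) := by
    refine ⟨pr_ell hU2 hm hl h𝓓, fun _ _ h h' => pr_mul hU1 hm hl h𝓓 h h',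
      fun q hq hql a h => pr_th hC1 hU1 hU2 hW7 hm hl h𝓓 hq hql h, ?_, ?_, ?_⟩
    · rintro a b c d ⟨h, hs⟩ ⟨h', hs'⟩
      refine ⟨pr_mul hU1 hm hl h𝓓 h h', ?_⟩
      rcases hS with hS | hS
      · rw [hS] at hs hs' ⊢
        exact Nat.mul_lt_mul'' hs hs'
      · rw [hS] at hs hs' ⊢
        exact Nat.mul_lt_mul'' hs hs'
    · rintro a b c h ⟨h', hs⟩
      refine ⟨pr_mul hU1 hm hl h𝓓 h h', ?_⟩
      have hc := (pr_pos hK0 hm hl h).1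
      rcases hS with hS | hS
      · rw [hS] at hs ⊢
        exact Nat.mul_lt_mul_of_pos_left hs hc
      · rw [hS] at hs ⊢
        exact Nat.mul_lt_mul_of_pos_left hs hc
    · rintro q hq hql a b ⟨h, hs⟩
      refine ⟨pr_th hC1 hU1 hU2 hW7 hm hl h𝓓 hq hql h, ?_⟩
      rcases hS with hS | hS
      · rw [hS] at hs ⊢
        exact th_mono hN1 hq (Nat.mul_lt_mul_of_pos_left hs hℓ.pos)
      · rw [hS] at hs ⊢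
        exact th_mono hN1 hq (Nat.mul_lt_mul_of_pos_left hs hℓ.pos)
  obtain ⟨x, y, ⟨h1, h2⟩, h3, h4⟩ := hN8 ℓ hℓ _ _ hcl
    (by
      rintro a b ⟨h, hs⟩
      refine ⟨?_, pr_pos hK0 hm hl h⟩
      rcases hS with hS | hS
      · rw [hS] at hs; omega
      · rw [hS] at hs; omega) ⟨a, b, h, hab⟩ n hn i j
  exact ⟨x, y, h1, h2, h3, h4⟩

theorem pow_ratio {u v x y : ℕ} (huv : v < u) (hv : 0 < v) (hx : 0 < x) (c : ℝ) :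
    ∃ k : ℕ, c * ((y * v ^ k : ℕ) : ℝ) < ((x * u ^ k : ℕ) : ℝ) := by
  have hv' : (0 : ℝ) < v := by exact_mod_cast hv
  have hr : (1 : ℝ) < (u : ℝ) / v := by
    rw [one_lt_div hv']
    exact_mod_cast huv
  obtain ⟨k, hk⟩ := pow_unbounded_of_one_lt (c * y / x) hr
  refine ⟨k, ?_⟩
  have hx' : (0 : ℝ) < x := by exact_mod_cast hx
  rw [div_lt_iff₀ hx', div_pow, div_mul_eq_mul_div, lt_div_iff₀ (pow_pos hv' k)] at hk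
  push_cast
  calc c * (y * (v : ℝ) ^ k) = c * y * (v : ℝ) ^ k := by ring
    _ < (u : ℝ) ^ k * x := hk
    _ = _ := by ring

theorem dense_gt (hC1 : T_C1) (hU1 : T_U1) (hU2 : T_U2) (hW7 : T_W7) (hK0 : T_K0) (hN1 : T_N1)
    (hN8 : T_N8) (hm : 𝔪.IsMaximal) (hl : (ℓ : integralClosure ℤ ℂ) ∈ 𝔪) (h𝓓 : Closed ℓ 𝓓)
    {a b : ℕ} (h : Pr ℓ 𝔪 𝓓 a b) (hab : b < a) (n : ℕ) (hn : n.Coprime ℓ) (i j : ℕ) (c : ℝ) :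
    ∃ x y, Pr ℓ 𝔪 𝓓 x y ∧ x ≡ i [MOD n] ∧ y ≡ j [MOD n] ∧ c * y < x := by
  obtain ⟨x, y, h1, h2, h3, h4⟩ := dense hC1 hU1 hU2 hW7 hK0 hN1 hN8 hm hl h𝓓
    (fun a b => b < a) (Or.inl fun _ _ => Iff.rfl) h hab n hn i j
  obtain ⟨u, v, g1, g2, g3, g4⟩ := dense hC1 hU1 hU2 hW7 hK0 hN1 hN8 hm hl h𝓓
    (fun a b => b < a) (Or.inl fun _ _ => Iff.rfl) h hab n hn 1 1
  have hpos := pr_pos hK0 hm hl h1
  have hpos' := pr_pos hK0 hm hl g1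
  obtain ⟨k, hk⟩ := pow_ratio (y := y) g2 hpos'.2 hpos.1 c
  have key : ∀ k : ℕ, Pr ℓ 𝔪 𝓓 (x * u ^ k) (y * v ^ k) ∧ x * u ^ k ≡ i [MOD n] ∧
      y * v ^ k ≡ j [MOD n] := by
    intro k
    induction k with
    | zero => simpa using ⟨h1, h3, h4⟩
    | succ k ih =>
      obtain ⟨i1, i2, i3⟩ := ih
      refine ⟨?_, ?_, ?_⟩
      · have := pr_mul hU1 hm hl h𝓓 i1 g1
        rwa [mul_assoc, mul_assoc, ← pow_succ, ← pow_succ] at this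
      · have := i2.mul g3
        rwa [mul_assoc, ← pow_succ, mul_one] at this
      · have := i3.mul g4
        rwa [mul_assoc, ← pow_succ, mul_one] at this
  exact ⟨_, _, (key k).1, (key k).2.1, (key k).2.2, hk⟩

theorem dense_lt (hC1 : T_C1) (hU1 : T_U1) (hU2 : T_U2) (hW7 : T_W7) (hK0 : T_K0) (hN1 : T_N1)
    (hN8 : T_N8) (hm : 𝔪.IsMaximal) (hl : (ℓ : integralClosure ℤ ℂ) ∈ 𝔪) (h𝓓 : Closed ℓ 𝓓)
    {a b : ℕ} (h : Pr ℓ 𝔪 𝓓 a b) (hab : a < b) (n : ℕ) (hn : n.Coprime ℓ) (i j : ℕ) (c : ℝ) :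
    ∃ x y, Pr ℓ 𝔪 𝓓 x y ∧ x ≡ i [MOD n] ∧ y ≡ j [MOD n] ∧ c * x < y := by
  obtain ⟨x, y, h1, h2, h3, h4⟩ := dense hC1 hU1 hU2 hW7 hK0 hN1 hN8 hm hl h𝓓
    (fun a b => a < b) (Or.inr fun _ _ => Iff.rfl) h hab n hn i j
  obtain ⟨u, v, g1, g2, g3, g4⟩ := dense hC1 hU1 hU2 hW7 hK0 hN1 hN8 hm hl h𝓓
    (fun a b => a < b) (Or.inr fun _ _ => Iff.rfl) h hab n hn 1 1
  have hpos := pr_pos hK0 hm hl h1
  have hpos' := pr_pos hK0 hm hl g1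
  obtain ⟨k, hk⟩ := pow_ratio (y := x) g2 hpos'.1 hpos.2 c
  have key : ∀ k : ℕ, Pr ℓ 𝔪 𝓓 (x * u ^ k) (y * v ^ k) ∧ x * u ^ k ≡ i [MOD n] ∧
      y * v ^ k ≡ j [MOD n] := by
    intro k
    induction k with
    | zero => simpa using ⟨h1, h3, h4⟩
    | succ k ih =>
      obtain ⟨i1, i2, i3⟩ := ih
      refine ⟨?_, ?_, ?_⟩
      · have := pr_mul hU1 hm hl h𝓓 i1 g1
        rwa [mul_assoc, mul_assoc, ← pow_succ, ← pow_succ] at this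
      · have := i2.mul g3
        rwa [mul_assoc, ← pow_succ, mul_one] at this
      · have := i3.mul g4
        rwa [mul_assoc, ← pow_succ, mul_one] at this
  exact ⟨_, _, (key k).1, (key k).2.1, (key k).2.2, hk⟩

end

/-- `AMrelD` for all finite groups in terms of pairs -/
theorem all_iff {ℓ : ℕ} {𝔪 : Ideal (integralClosure ℤ ℂ)} {𝓓 : (D : Type) → [Group D] → Prop}
    {P : ℕ → ℕ → Prop} : (∀ (G : Type) [Group G] [Fintype G], AMrelD ℓ 𝔪 𝓓 P G) ↔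
      ∀ a b, Pr ℓ 𝔪 𝓓 a b → P a b := by
  constructor
  · rintro h a b ⟨G, _, _, D, χ, ψ, hB, hD, rfl, rfl⟩
    exact h G D χ ψ hB hD
  · intro h G _ _ D χ ψ hB hD
    exact h _ _ ⟨G, inferInstance, inferInstance, D, χ, ψ, hB, hD, rfl, rfl⟩

/-- the passage from `Y (2 |G|)` to `G` -/
theorem from_Y (hB7D : T_B7D) (hX1 : T_X1N) {ℓ p : ℕ} [Fact ℓ.Prime] [Fact p.Prime]
    (hlp : ℓ ≠ p) (hp2 : p ≠ 2) {𝔪 : Ideal (integralClosure ℤ ℂ)} (hm : 𝔪.IsMaximal)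
    (hl : (ℓ : integralClosure ℤ ℂ) ∈ 𝔪) {𝓓 : (D : Type) → [Group D] → Prop}
    (h𝓓 : Closed ℓ 𝓓) (Y : (N : ℕ) → Subgroup (XN p N)) (hY : ∀ N, commutator (XN p N) ≤ Y N)
    {P : ℕ → ℕ → Prop} (G : Type) [Group G] [Fintype G] [Fintype (Y (2 * Nat.card G))]
    (h : AMrelD ℓ 𝔪 𝓓 P (Y (2 * Nat.card G))) : AMrelD ℓ 𝔪 𝓓 P G := by
  have h2 := hX1 ℓ p hlp hp2 G (2 ^ 0)
  rw [pow_zero, mul_one] at h2
  have h3 := hB7D ℓ 𝔪 hm hl 𝓓 h𝓓 _ _ _ (h2 (Y (2 * Nat.card G)) (hY _)) h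
  have e : G ≃* (Fin (2 ^ 0) → G) :=
    { toFun := fun g _ => g
      invFun := fun f => f ⟨0, by norm_num⟩
      left_inv := fun g => rfl
      right_inv := fun f => by
        funext i
        have : i = ⟨0, by norm_num⟩ := by
          apply Fin.ext
          have := i.2
          simp only [pow_zero] at this
          omega
        rw [this]
      map_mul' := fun a b => rfl }
  exact hB7D ℓ 𝔪 hm hl 𝓓 h𝓓 _ _ _ (HP.fr_equiv ℓ e) h3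

theorem final (hC1 : T_C1) (hU1 : T_U1) (hU2 : T_U2) (hW7 : T_W7) (hK0 : T_K0) (hN1 : T_N1)
    (hN8 : T_N8) (hB7D : T_B7D) (hX1 : T_X1N)
    (ℓ p : ℕ) [Fact ℓ.Prime] [Fact p.Prime] (hlp : ℓ ≠ p) (hp2 : p ≠ 2)
    (𝔪 : Ideal (integralClosure ℤ ℂ)) (hm : 𝔪.IsMaximal) (hl : (ℓ : integralClosure ℤ ℂ) ∈ 𝔪)
    (𝓓 : (D : Type) → [Group D] → Prop) (h𝓓 : Closed ℓ 𝓓)
    (Y : (N : ℕ) → Subgroup (XN p N)) (hY : ∀ N, commutator (XN p N) ≤ Y N)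
    (n i j : ℕ) (hn : n.Coprime ℓ) (hij : ¬ i ≡ j [MOD n]) (c : ℝ) :
    [∀ (G : Type) [Group G] [Fintype G], AMrelD ℓ 𝔪 𝓓 (fun a b => a = b) G,
     ∀ (G : Type) [Group G] [Fintype G], AMrelD ℓ 𝔪 𝓓 (fun a b => a ≡ b [MOD n]) G,
     ∀ N, ∀ [Fintype (Y N)], AMrelD ℓ 𝔪 𝓓
       (fun a b => ¬ (a ≡ i [MOD n] ∧ b ≡ j [MOD n] ∧ (c * b < a ∨ c * a < b))) (Y N)].TFAE := by
  have hY' : ∀ P : ℕ → ℕ → Prop, (∀ N, ∀ [Fintype (Y N)], AMrelD ℓ 𝔪 𝓓 P (Y N)) →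
      ∀ (G : Type) [Group G] [Fintype G], AMrelD ℓ 𝔪 𝓓 P G := by
    intro P h G _ _
    have : Fintype (Y (2 * Nat.card G)) := Fintype.ofFinite _
    exact from_Y hB7D hX1 hlp hp2 hm hl h𝓓 Y hY G (h _)
  have dgt := fun {a b : ℕ} (h : Pr ℓ 𝔪 𝓓 a b) (hab : b < a) =>
    dense_gt hC1 hU1 hU2 hW7 hK0 hN1 hN8 hm hl h𝓓 h hab n hn i j c
  have dlt := fun {a b : ℕ} (h : Pr ℓ 𝔪 𝓓 a b) (hab : a < b) =>
    dense_lt hC1 hU1 hU2 hW7 hK0 hN1 hN8 hm hl h𝓓 h hab n hn i j c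
  tfae_have 1 → 2 := by
    intro h
    rw [all_iff] at h ⊢
    intro a b hab
    exact congrArg (· % n) (h a b hab)
  tfae_have 2 → 3 := by
    intro h N _ D χ ψ hB hD
    rintro ⟨h1, h2, -⟩
    exact hij (h1.symm.trans ((h (Y N) D χ ψ hB hD).trans h2))
  tfae_have 3 → 1 := by
    intro h
    have h' := hY' _ h
    rw [all_iff] at h' ⊢
    intro a b hab
    rcases lt_trichotomy a b with hlt | heq | hlt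
    · obtain ⟨x, y, g1, g2, g3, g4⟩ := dlt hab hlt
      exact absurd ⟨g2, g3, Or.inr g4⟩ (h' x y g1)
    · exact heq
    · obtain ⟨x, y, g1, g2, g3, g4⟩ := dgt hab hlt
      exact absurd ⟨g2, g3, Or.inl g4⟩ (h' x y g1)
  tfae_finish

end AMq
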